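import Pool.Agent.helper24.CG.Spec

set_option autoImplicit false

namespace Pool.Agent.helper24.CG

open Finset

open Classical in
/-- the weight of a family of tuples is at most the total weight -/
theorem SUN_weight (hMUL : MUL_stmt) (N m b q p : ℕ) (H : List (ES N))
    (Bk : ES N) (Ψ : ES N → ℝ) (c : ℝ) (B : Finset (Fin N)) (hN : 1 ≤ N)
    (hB : B.card ≤ q) (hΨ : ∀ S, 0 ≤ Ψ S) (hc : ∑ S, Ψ S ≤ c)
    (hdom : ∀ S, Disjoint S Bk → Psi0 N q p S * gain b m S H ≤ Ψ S)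
    (T : Finset (Fin p → Finset (Fin N)))
    (hT : ∀ f ∈ T, ∀ i, (f i).card = q - B.card ∧ Disjoint B (f i) ∧
      Disjoint (rest (B ∪ f i) B) Bk) :
    (((q : ℝ) + 1) * (N : ℝ) ^ (B.card + p * (q - B.card)))⁻¹ *
      ∑ f ∈ T, gain b m (sunset B f) H ≤ c := by
  set w : ℝ := (((q : ℝ) + 1) * (N : ℝ) ^ (B.card + p * (q - B.card)))⁻¹ with hw
  have hw0 : 0 ≤ w := by rw [hw]; positivity
  refine le_trans ?_ hc
  rw [Finset.mul_sum, ← Finset.sum_fiberwise T (fun f => sunset B f)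
    (fun f => w * gain b m (sunset B f) H)]
  refine Finset.sum_le_sum fun S _ => ?_
  rcases (T.filter (fun f => sunset B f = S)).eq_empty_or_nonempty with hE | ⟨f₀, hf₀⟩
  · rw [hE, Finset.sum_empty]
    exact hΨ S
  · have hdisj : Disjoint S Bk := by
      rw [Finset.mem_filter] at hf₀
      rw [← hf₀.2]
      unfold sunset
      rw [Finset.disjoint_biUnion_left]
      exact fun i _ => (hT f₀ hf₀.1 i).2.2
    have hgain : 0 ≤ gain b m S H :=
      le_trans zero_le_one ((hMUL (Finset (Fin N)) b m).2.1 S H)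
    refine le_trans ?_ (hdom S hdisj)
    have e1 : ∑ f ∈ T.filter (fun f => sunset B f = S), w * gain b m (sunset B f) H
        = (∑ f ∈ T.filter (fun f => sunset B f = S), w) * gain b m S H := by
      rw [Finset.sum_mul]
      refine Finset.sum_congr rfl fun f hf => ?_
      rw [(Finset.mem_filter.mp hf).2]
    rw [e1]
    refine mul_le_mul_of_nonneg_right ?_ hgain
    unfold Psi0
    have h2 : 0 ≤ ∑ K ∈ (univ : Finset (Fin N)).powersetCard q,
        (if ed K = S then ((N : ℝ) ^ q)⁻¹ else 0) := by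
      refine Finset.sum_nonneg fun K _ => ?_
      split_ifs
      · positivity
      · exact le_refl 0
    refine le_trans ?_ (le_add_of_nonneg_right h2)
    have hinj : Function.Injective
        (fun f : Fin p → Finset (Fin N) => ((B, f) : Finset (Fin N) × (Fin p → Finset (Fin N)))) := by
      intro f g h
      exact (Prod.mk.inj h).2
    have e2 : ∑ f ∈ T.filter (fun f => sunset B f = S), w
        = ∑ x ∈ (T.filter (fun f => sunset B f = S)).image
            (fun f => ((B, f) : Finset (Fin N) × (Fin p → Finset (Fin N)))),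
          (if sunset x.1 x.2 = S then
            (((q : ℝ) + 1) * (N : ℝ) ^ (x.1.card + p * (q - x.1.card)))⁻¹ else 0) := by
      rw [Finset.sum_image (fun f _ g _ h => hinj h)]
      refine Finset.sum_congr rfl fun f hf => ?_
      rw [if_pos (Finset.mem_filter.mp hf).2]
    rw [e2]
    refine Finset.sum_le_sum_of_subset_of_nonneg ?_ ?_
    · intro x hx
      rw [Finset.mem_image] at hx
      obtain ⟨f, hf, rfl⟩ := hx
      have hfT := (Finset.mem_filter.mp hf).1
      unfold suns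
      rw [Finset.mem_filter]
      exact ⟨Finset.mem_univ _, hB, fun i => ⟨(hT f hfT i).1, (hT f hfT i).2.1⟩⟩
    · intro x _ _
      split_ifs
      · positivity
      · exact le_refl 0

open Classical in
/-- TUP with an abstract set of tuples -/
theorem SUN_tup (hTUP : TUP_stmt) (γ : Type) (F : Finset γ) (ν : γ → ℝ) (bad : γ → γ → Prop)
    (p : ℕ) (θ : ℝ) (h0 : ∀ x ∈ F, 0 ≤ ν x) (h1 : 0 ≤ θ) (h2 : (p : ℝ) ^ 2 * θ ≤ 1)
    (h3 : ∀ x ∈ F, ∑ y ∈ F.filter (fun y => bad x y), ν y ≤ θ * ∑ y ∈ F, ν y) :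
    ∃ T : Finset (Fin p → γ), (∀ f ∈ T, (∀ i, f i ∈ F) ∧ ∀ i j, i < j → ¬ bad (f i) (f j)) ∧
      (∑ x ∈ F, ν x) ^ p ≤ 2 * ∑ f ∈ T, ∏ i, ν (f i) := by
  refine ⟨_, ?_, hTUP γ F ν bad p θ h0 h1 h2 h3⟩
  intro f hf
  have h := Finset.mem_filter.mp hf
  exact ⟨fun i => Fintype.mem_piFinset.mp h.1 i, h.2⟩

theorem SUN (hTUP : TUP_stmt) (hHIT : HIT_stmt) (hMUL : MUL_stmt) (_hINI : INI_stmt) :
    SUN_stmt := by
  classical
  intro N m b q p H Bk Ψ c B X hN hm hp hq hc hB hH hΨ hΨc hdom hheavy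
  have hp' : (0 : ℝ) < p := by exact_mod_cast hp
  have hm' : (0 : ℝ) < m := by exact_mod_cast hm
  have hq' : (0 : ℝ) < q := by exact_mod_cast hq
  have hN' : (1 : ℝ) ≤ N := by exact_mod_cast hN
  have hN0 : (0 : ℝ) < N := by linarith
  set 𝓕 := fam N q Bk B X with h𝓕
  have hmem : ∀ F ∈ 𝓕, F.card = q - B.card ∧ Disjoint B F ∧ Disjoint X F ∧
      Disjoint (rest (B ∪ F) B) Bk := by
    intro F hF
    rw [h𝓕] at hF
    unfold fam at hF
    exact (Finset.mem_filter.mp hF).2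
  have hν : ∀ F, 1 ≤ nu b m H B F := fun F => (hMUL (Finset (Fin N)) b m).2.1 _ H
  have hτ : (0 : ℝ) ≤ (2 * (p : ℝ) ^ 2 * m * (q : ℝ) ^ 2)⁻¹ := by positivity
  have hhit := hHIT N m q H B 𝓕 (nu b m H B) ((2 * (p : ℝ) ^ 2 * m * (q : ℝ) ^ 2)⁻¹) hH hτ
    (fun F hF => ⟨le_trans zero_le_one (hν F), by
      have h1 := Finset.card_union_le B F
      have h2 := (hmem F hF).1
      omega⟩) hheavy
  have hcoef : 2 * (m : ℝ) * (q : ℝ) ^ 2 * (2 * (p : ℝ) ^ 2 * m * (q : ℝ) ^ 2)⁻¹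
      = 1 / (p : ℝ) ^ 2 := by
    field_simp
  have htup := SUN_tup hTUP (Finset (Fin N)) 𝓕 (nu b m H B)
    (fun F G => ∃ E ∈ H, ¬ Disjoint E (rest (B ∪ F) B) ∧ ¬ Disjoint E (rest (B ∪ G) B))
    p (1 / (p : ℝ) ^ 2) (fun F _ => le_trans zero_le_one (hν F)) (by positivity)
    (by rw [mul_one_div, div_self (by positivity)]) (fun F hF => by
      have h := hhit F hF
      rw [hcoef] at h
      refine le_trans (le_of_eq (Finset.sum_congr ?_ fun _ _ => rfl)) h
      ext G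
      simp only [Finset.mem_filter])
  set W : ℝ := ∑ F ∈ 𝓕, nu b m H B F with hW
  have hW0 : 0 ≤ W := Finset.sum_nonneg fun F _ => le_trans zero_le_one (hν F)
  -- products are at most the gains of the sunflowers
  have hprod : ∀ f : Fin p → Finset (Fin N),
      (∀ i j, i < j → ¬ ∃ E ∈ H, ¬ Disjoint E (rest (B ∪ f i) B) ∧
        ¬ Disjoint E (rest (B ∪ f j) B)) →
      ∏ i, nu b m H B (f i) ≤ gain b m (sunset B f) H := by
    intro f hf
    have h := (hMUL (Finset (Fin N)) b m).1 p H (fun i => rest (B ∪ f i) B) (by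
      intro E hE i j hij
      by_contra hno
      rw [not_or] at hno
      exact hf i j hij ⟨E, hE, hno.1, hno.2⟩)
    exact h
  obtain ⟨T, hT, htup⟩ := htup
  have hsum : W ^ p ≤ 2 * (c * (((q : ℝ) + 1) * (N : ℝ) ^ (B.card + p * (q - B.card)))) := by
    refine le_trans htup ?_
    refine mul_le_mul_of_nonneg_left ?_ (by norm_num)
    refine le_trans (Finset.sum_le_sum fun f hf => hprod f (hT f hf).2) ?_
    have h := SUN_weight hMUL N m b q p H Bk Ψ c B hN hB hΨ hΨc hdom T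
      (fun f hf i => by
        obtain ⟨a1, a2, -, a4⟩ := hmem (f i) ((hT f hf).1 i)
        exact ⟨a1, a2, a4⟩)
    have hpos : (0 : ℝ) < ((q : ℝ) + 1) * (N : ℝ) ^ (B.card + p * (q - B.card)) := by positivity
    rw [inv_mul_le_iff₀ hpos, mul_comm _ c] at h
    exact h
  -- roots
  set V : ℝ := 2 * c * ((q : ℝ) + 1) * (N : ℝ) ^ (((q - B.card : ℕ) : ℝ) + (B.card : ℝ) / (p : ℝ))
    with hV
  have hV0 : 0 ≤ V := by
    rw [hV]
    have : 0 ≤ c := by linarith
    positivity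
  have hVp : 2 * (c * (((q : ℝ) + 1) * (N : ℝ) ^ (B.card + p * (q - B.card)))) ≤ V ^ p := by
    have e1 : ((N : ℝ) ^ (((q - B.card : ℕ) : ℝ) + (B.card : ℝ) / (p : ℝ))) ^ p
        = (N : ℝ) ^ (B.card + p * (q - B.card)) := by
      rw [← Real.rpow_natCast, ← Real.rpow_mul hN0.le, ← Real.rpow_natCast]
      congr 1
      push_cast
      field_simp
      ring
    have e2 : V ^ p = (2 * c * ((q : ℝ) + 1)) ^ p * (N : ℝ) ^ (B.card + p * (q - B.card)) := by
      rw [hV, mul_pow, e1]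
    rw [e2]
    have h1 : (1 : ℝ) ≤ 2 * c * ((q : ℝ) + 1) := by nlinarith
    have h2 : 2 * c * ((q : ℝ) + 1) ≤ (2 * c * ((q : ℝ) + 1)) ^ p := by
      calc 2 * c * ((q : ℝ) + 1) = (2 * c * ((q : ℝ) + 1)) ^ 1 := (pow_one _).symm
        _ ≤ _ := pow_le_pow_right₀ h1 hp
    calc 2 * (c * (((q : ℝ) + 1) * (N : ℝ) ^ (B.card + p * (q - B.card))))
        = 2 * c * ((q : ℝ) + 1) * (N : ℝ) ^ (B.card + p * (q - B.card)) := by ring
      _ ≤ _ := mul_le_mul_of_nonneg_right h2 (by positivity)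
  exact le_of_pow_le_pow_left₀ (by omega) hV0 (le_trans hsum hVp)

end Pool.Agent.helper24.CG
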