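import Pool.Agent.helper48.CG.Spec

/-!
# Project cg (MP_a87880_co), module SUP

Supermultiplicativity of the weighted number of avoiders.
-/

set_option autoImplicit false

namespace Pool.Agent.helper48.CG

open Equiv Finset Function Pool.Agent.helper48.PP

theorem SUP_dich {m n : ℕ} (x : Fin (m + n)) :
    (∃ i, x = Fin.castAdd n i) ∨ ∃ i, x = Fin.natAdd m i := by
  induction x using Fin.addCases with
  | left i => exact Or.inl ⟨i, rfl⟩
  | right i => exact Or.inr ⟨i, rfl⟩

theorem SUP_A {b m n : ℕ} (y : Perm (Fin b)) (v : Perm (Fin m)) (v' : Perm (Fin n)) (c r : ℕ)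
    (h : Yge y v c r) : Yge y (ssum v v') c (n + r) := by
  obtain ⟨g, hg, hg'⟩ := h
  refine ⟨fun s => Fin.castAdd n (g s), ⟨fun s t hst => ?_, fun s t => ?_⟩, fun s => ⟨?_, ?_⟩⟩
  · exact castAdd_lt.mpr (hg.1 hst)
  · rw [← hg.2, Fin.lt_def, Fin.lt_def, ssum_castAdd, ssum_castAdd]
    omega
  · rw [Fin.val_castAdd]
    exact (hg' s).1
  · rw [ssum_castAdd]
    have := (hg' s).2
    omega

theorem SUP_B {b m n : ℕ} (y : Perm (Fin b)) (v : Perm (Fin m)) (v' : Perm (Fin n)) (c r : ℕ)
    (h : Yge y (ssum v v') c (n + r)) : Yge y v c r := by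
  obtain ⟨g, hg, hg'⟩ := h
  have key : ∀ s, ∃ i, g s = Fin.castAdd n i := by
    intro s
    rcases SUP_dich (g s) with h1 | ⟨i, hi⟩
    · exact h1
    · exfalso
      have := (hg' s).2
      rw [hi, ssum_natAdd] at this
      have := (v' i).2
      omega
  choose f hf using key
  refine ⟨f, ⟨fun s t hst => ?_, fun s t => ?_⟩, fun s => ⟨?_, ?_⟩⟩
  · have := hg.1 hst
    rw [hf s, hf t] at this
    exact castAdd_lt.mp this
  · rw [← hg.2, hf s, hf t, Fin.lt_def, Fin.lt_def, ssum_castAdd, ssum_castAdd]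
    omega
  · have := (hg' s).1
    rw [hf s, Fin.val_castAdd] at this
    exact this
  · have := (hg' s).2
    rw [hf s, ssum_castAdd] at this
    omega

theorem SUP_C {b m n : ℕ} (y : Perm (Fin b)) (v : Perm (Fin m)) (v' : Perm (Fin n)) (c r : ℕ) :
    Yge y (ssum v v') (m + c) r ↔ Yge y v' c r := by
  constructor
  · rintro ⟨g, hg, hg'⟩
    have key : ∀ s, ∃ i, g s = Fin.natAdd m i := by
      intro s
      rcases SUP_dich (g s) with ⟨i, hi⟩ | h1
      · exfalso
        have := (hg' s).1
        rw [hi, Fin.val_castAdd] at this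
        have := i.2
        omega
      · exact h1
    choose f hf using key
    refine ⟨f, ⟨fun s t hst => ?_, fun s t => ?_⟩, fun s => ⟨?_, ?_⟩⟩
    · have := hg.1 hst
      rw [hf s, hf t] at this
      exact natAdd_lt.mp this
    · rw [← hg.2, hf s, hf t, Fin.lt_def, Fin.lt_def, ssum_natAdd, ssum_natAdd]
    · have := (hg' s).1
      rw [hf s, Fin.val_natAdd] at this
      omega
    · have := (hg' s).2
      rw [hf s, ssum_natAdd] at this
      exact this
  · rintro ⟨g, hg, hg'⟩
    refine ⟨fun s => Fin.natAdd m (g s), ⟨fun s t hst => ?_, fun s t => ?_⟩, fun s => ⟨?_, ?_⟩⟩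
    · exact natAdd_lt.mpr (hg.1 hst)
    · rw [← hg.2, Fin.lt_def, Fin.lt_def, ssum_natAdd, ssum_natAdd]
    · rw [Fin.val_natAdd]
      have := (hg' s).1
      omega
    · rw [ssum_natAdd]
      exact (hg' s).2

theorem SUP_corn (hHG : HG_stmt) {b m n : ℕ} (y : Perm (Fin (b + 1))) (v : Perm (Fin m))
    (v' : Perm (Fin n)) :
    (corn y v).card + (corn y v').card ≤ (corn y (ssum v v')).card := by
  classical
  have hv := (hHG y v).1
  have hv' := (hHG y v').1
  have hw := (hHG y (ssum v v')).1
  have hsub : (corn y v).image (Fin.castAdd n) ∪ (corn y v').image (Fin.natAdd m) ⊆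
      corn y (ssum v v') := by
    intro x hx
    rw [Finset.mem_union, Finset.mem_image, Finset.mem_image] at hx
    unfold corn at hx ⊢
    rw [Finset.mem_filter]
    refine ⟨Finset.mem_univ _, ?_⟩
    rcases hx with ⟨c, hc, rfl⟩ | ⟨c, hc, rfl⟩
    · rw [Finset.mem_filter] at hc
      have hc := hc.2
      rw [Fin.val_castAdd]
      have h1 : hgt y (ssum v v') ((c : ℕ) + 1) ≤ n + hgt y v ((c : ℕ) + 1) := by
        by_contra hcon
        push Not at hcon
        have h2 := (hw ((c : ℕ) + 1) (n + hgt y v ((c : ℕ) + 1))).mpr hcon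
        have h3 := (hv _ _).mp (SUP_B y v v' _ _ h2)
        omega
      have h4 : n + hgt y v (c : ℕ) ≤ hgt y (ssum v v') (c : ℕ) := by
        have h5 : Yge y v (c : ℕ) (hgt y v (c : ℕ) - 1) := (hv _ _).mpr (by omega)
        have h6 := (hw _ _).mp (SUP_A y v v' _ _ h5)
        omega
      omega
    · rw [Finset.mem_filter] at hc
      have hc := hc.2
      rw [Fin.val_natAdd]
      have h1 : ∀ d, hgt y (ssum v v') (m + d) = hgt y v' d := by
        intro d
        have h2 : ∀ r, r < hgt y (ssum v v') (m + d) ↔ r < hgt y v' d := by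
          intro r
          rw [← hw, ← hv', SUP_C]
        have h3 := h2 (hgt y v' d)
        have h4 := h2 (hgt y (ssum v v') (m + d))
        omega
      rw [add_assoc, h1, h1]
      exact hc
  calc (corn y v).card + (corn y v').card
      = ((corn y v).image (Fin.castAdd n)).card + ((corn y v').image (Fin.natAdd m)).card := by
        rw [Finset.card_image_of_injective _ (Fin.castAdd_injective m n),
          Finset.card_image_of_injective _ (Fin.natAdd_injective n m)]
    _ = ((corn y v).image (Fin.castAdd n) ∪ (corn y v').image (Fin.natAdd m)).card := by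
        rw [Finset.card_union_of_disjoint]
        rw [Finset.disjoint_left]
        intro x hx hx'
        rw [Finset.mem_image] at hx hx'
        obtain ⟨i, _, hi⟩ := hx
        obtain ⟨j, _, hj⟩ := hx'
        have h1 := congrArg Fin.val hi
        have h2 := congrArg Fin.val hj
        rw [Fin.val_castAdd] at h1
        rw [Fin.val_natAdd] at h2
        have := i.2
        omega
    _ ≤ _ := Finset.card_le_card hsub

theorem SUP (hHG : HG_stmt) : SUP_stmt := by
  classical
  intro b y θ hθ
  have hp : SkewIndec (dsum (1 : Perm (Fin 1)) y) := skewIndec_dsum (by omega) (by omega) _ _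
  have h1θ : (1 : ℝ) ≤ 1 + θ := by linarith
  have hcard : ∀ n, avCount n (dsum (1 : Perm (Fin 1)) y) = (avs y n).card :=
    (hHG y (1 : Perm (Fin 0))).2.2.2.2.2
  refine ⟨fun m n => ?_, fun n => ?_, fun n => ?_⟩
  · unfold wt
    rw [Finset.sum_mul_sum, ← Finset.sum_product']
    have hinj : Set.InjOn (fun p : Perm (Fin m) × Perm (Fin n) => ssum p.1 p.2)
        ((avs y m ×ˢ avs y n : Finset (Perm (Fin m) × Perm (Fin n))) : Set _) := by
      rintro ⟨v, v'⟩ _ ⟨u, u'⟩ _ h
      obtain ⟨e1, e2⟩ := ssum_inj h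
      exact Prod.ext e1 e2
    calc ∑ p ∈ avs y m ×ˢ avs y n, (1 + θ) ^ (corn y p.1).card * (1 + θ) ^ (corn y p.2).card
        ≤ ∑ p ∈ avs y m ×ˢ avs y n, (1 + θ) ^ (corn y (ssum p.1 p.2)).card := by
          refine Finset.sum_le_sum fun p _ => ?_
          rw [← pow_add]
          exact pow_le_pow_right₀ h1θ (SUP_corn hHG y p.1 p.2)
      _ = ∑ w ∈ (avs y m ×ˢ avs y n).image (fun p : Perm (Fin m) × Perm (Fin n) =>
            ssum p.1 p.2), (1 + θ) ^ (corn y w).card := by
          rw [Finset.sum_image hinj]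
      _ ≤ ∑ w ∈ avs y (m + n), (1 + θ) ^ (corn y w).card := by
          refine Finset.sum_le_sum_of_subset_of_nonneg ?_ (fun _ _ _ => by positivity)
          intro w hw
          rw [Finset.mem_image] at hw
          obtain ⟨p, hp', rfl⟩ := hw
          rw [Finset.mem_product] at hp'
          unfold avs at hp' ⊢
          rw [Finset.mem_filter, Finset.mem_filter] at hp'
          rw [Finset.mem_filter]
          exact ⟨Finset.mem_univ _, ssum_avoid hp hp'.1.2 hp'.2.2⟩
  · have h1 : 1 ≤ (avs y n).card := by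
      rw [← hcard]
      exact one_le_avCount hp (by omega) n
    unfold wt
    calc (1 : ℝ) ≤ ((avs y n).card : ℝ) := by exact_mod_cast h1
      _ = ∑ v ∈ avs y n, (1 : ℝ) := by simp
      _ ≤ _ := Finset.sum_le_sum fun v _ => one_le_pow₀ h1θ
  · unfold wt
    calc ∑ v ∈ avs y n, (1 + θ) ^ (corn y v).card ≤ ∑ v ∈ avs y n, (1 + θ) ^ n := by
          refine Finset.sum_le_sum fun v _ => ?_
          refine pow_le_pow_right₀ h1θ ?_
          exact le_trans (Finset.card_le_univ _) (by simp)
      _ = (1 + θ) ^ n * (avCount n (dsum (1 : Perm (Fin 1)) y) : ℝ) := by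
          rw [Finset.sum_const, nsmul_eq_mul, hcard]
          ring

end Pool.Agent.helper48.CG
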